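import Pool.Agent.X177.LA.Orb

/-!
# MP_fbf57d_al, Q1: the group of local automorphisms of a finite-dimensional algebra is closed

For every finite-dimensional, not necessarily associative algebra over the real or complex numbers
the local automorphisms form a closed subgroup of the general linear group.
-/

set_option autoImplicit false

namespace Pool.Agent.Results.MP_fbf57d_al.LocAutClosed

open Set Filter Topology

variable {𝕜 A : Type*} [RCLike 𝕜] [NormedAddCommGroup A] [NormedSpace 𝕜 A]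

/-- The automorphism group of the algebra `A` with the bilinear product `mul`. -/
def Aut (mul : A →ₗ[𝕜] A →ₗ[𝕜] A) : Subgroup (A ≃ₗ[𝕜] A) where
  carrier := {ψ | ∀ a b, ψ (mul a b) = mul (ψ a) (ψ b)}
  mul_mem' := by
    intro ψ χ hψ hχ a b
    show ψ (χ (mul a b)) = mul (ψ (χ a)) (ψ (χ b))
    rw [hχ, hψ]
  one_mem' := fun a b => rfl
  inv_mem' := by
    intro ψ hψ a b
    show ψ.symm (mul a b) = mul (ψ.symm a) (ψ.symm b)
    apply ψ.injective
    rw [hψ]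
    simp

/-- `φ` is a local automorphism: at every point it agrees with some automorphism. -/
def IsLocalAut (mul : A →ₗ[𝕜] A →ₗ[𝕜] A) (φ : A →ₗ[𝕜] A) : Prop :=
  ∀ x, ∃ ψ ∈ Aut mul, φ x = ψ x

/-- The group of local automorphisms, as a subgroup of the group `GL(A)` of the invertible
continuous linear maps of `A` (with its usual topology). -/
def LocAut (mul : A →ₗ[𝕜] A →ₗ[𝕜] A) : Subgroup (A →L[𝕜] A)ˣ where
  carrier := {u | IsLocalAut mul (u : A →L[𝕜] A)}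
  mul_mem' := by
    intro u v hu hv x
    obtain ⟨ψ, hψ, h1⟩ := hv x
    obtain ⟨χ, hχ, h2⟩ := hu ((v : A →L[𝕜] A) x)
    refine ⟨χ * ψ, (Aut mul).mul_mem hχ hψ, ?_⟩
    show (u : A →L[𝕜] A) ((v : A →L[𝕜] A) x) = χ (ψ x)
    rw [← show (v : A →L[𝕜] A) x = ψ x from h1]
    exact h2
  one_mem' := fun x => ⟨1, (Aut mul).one_mem, rfl⟩
  inv_mem' := by
    intro u hu x
    obtain ⟨ψ, hψ, h1⟩ := hu (((u⁻¹ : (A →L[𝕜] A)ˣ) : A →L[𝕜] A) x)
    have h2 : (u : A →L[𝕜] A) (((u⁻¹ : (A →L[𝕜] A)ˣ) : A →L[𝕜] A) x) = x := by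
      have := u.mul_inv
      exact congrArg (fun T : A →L[𝕜] A => T x) this
    refine ⟨ψ⁻¹, (Aut mul).inv_mem hψ, ?_⟩
    show ((u⁻¹ : (A →L[𝕜] A)ˣ) : A →L[𝕜] A) x = ψ.symm x
    rw [LinearEquiv.eq_symm_apply]
    exact (h2.symm.trans h1).symm

variable [FiniteDimensional 𝕜 A]

theorem orb_mem (mul : A →ₗ[𝕜] A →ₗ[𝕜] A) (x x' : A)
    (h1 : x' ∈ closure {y | ∃ ψ ∈ Aut mul, ψ x = y})
    (h2 : x ∈ closure {y | ∃ ψ ∈ Aut mul, ψ x' = y}) : ∃ ψ ∈ Aut mul, ψ x = x' := by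
  let _ : NormedSpace ℝ A := NormedSpace.restrictScalars ℝ 𝕜 A
  have _ : IsScalarTower ℝ 𝕜 A := RestrictScalars.isScalarTower ℝ 𝕜 A
  have _ : FiniteDimensional ℝ A := FiniteDimensional.trans ℝ 𝕜 A
  obtain ⟨U, hU, ⟨y, hyU, ψ, hψ, hψy⟩, hUc⟩ := X177.LA.orb_open_part mul x
  have hcont : ∀ χ : A ≃ₗ[𝕜] A, Continuous χ := fun χ =>
    LinearMap.continuous_of_finiteDimensional (χ : A →ₗ[𝕜] A)
  have hinv : ∀ χ ∈ Aut mul, ∀ z ∈ closure {y | ∃ ψ ∈ Aut mul, ψ x = y},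
      χ z ∈ closure {y | ∃ ψ ∈ Aut mul, ψ x = y} := by
    intro χ hχ z hz
    refine map_mem_closure (hcont χ) hz ?_
    rintro w ⟨η, hη, rfl⟩
    exact ⟨χ * η, (Aut mul).mul_mem hχ hη, rfl⟩
  have hV : IsOpen (ψ ⁻¹' U) := hU.preimage (hcont ψ)
  have hxV : x ∈ ψ ⁻¹' U := by
    show ψ x ∈ U
    rw [hψy]
    exact hyU
  obtain ⟨z, hzV, χ, hχ, hz⟩ := mem_closure_iff.1 h2 _ hV hxV
  have hzc : z ∈ closure {y | ∃ ψ ∈ Aut mul, ψ x = y} := by
    rw [← hz]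
    exact hinv χ hχ _ h1
  obtain ⟨η, hη, h3⟩ := hUc ⟨hzV, hinv ψ hψ z hzc⟩
  refine ⟨χ⁻¹ * (ψ⁻¹ * η), (Aut mul).mul_mem ((Aut mul).inv_mem hχ)
    ((Aut mul).mul_mem ((Aut mul).inv_mem hψ) hη), ?_⟩
  show χ.symm (ψ.symm (η x)) = x'
  rw [h3, LinearEquiv.symm_apply_apply, ← hz, LinearEquiv.symm_apply_apply]

/-- **Answer to Q1.** For every finite-dimensional algebra `A` over `𝕜 = ℝ` or `ℂ` (bilinear
product, nothing else assumed) the local automorphisms are exactly the members of the subgroup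
`LocAut` of `GL(A)`, and this subgroup is closed in `GL(A)`. -/
theorem result (mul : A →ₗ[𝕜] A →ₗ[𝕜] A) :
    (∀ φ : A →ₗ[𝕜] A, IsLocalAut mul φ ↔ ∃ u ∈ LocAut mul, ((u : A →L[𝕜] A) : A →ₗ[𝕜] A) = φ) ∧
    IsClosed (LocAut mul : Set (A →L[𝕜] A)ˣ) := by
  constructor
  · intro φ
    constructor
    · intro h
      have hinj : Function.Injective φ := by
        rw [← LinearMap.ker_eq_bot, LinearMap.ker_eq_bot']
        intro x hx
        obtain ⟨ψ, _, h1⟩ := h x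
        rw [hx] at h1
        exact (LinearEquiv.map_eq_zero_iff ψ).1 h1.symm
      let e : A ≃ₗ[𝕜] A := LinearEquiv.ofInjectiveEndo φ hinj
      let u : (A →L[𝕜] A)ˣ := ContinuousLinearEquiv.toUnit e.toContinuousLinearEquiv
      have hu : ((u : A →L[𝕜] A) : A →ₗ[𝕜] A) = φ := by
        ext x
        rfl
      refine ⟨u, ?_, hu⟩
      show IsLocalAut mul ((u : A →L[𝕜] A) : A →ₗ[𝕜] A)
      rw [hu]
      exact h
    · rintro ⟨u, hu, rfl⟩
      exact hu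
  · refine isClosed_of_closure_subset fun u hu => ?_
    have hev : ∀ x : A, Continuous fun w : (A →L[𝕜] A)ˣ => (w : A →L[𝕜] A) x := fun x =>
      (ContinuousLinearMap.apply 𝕜 A x).continuous.comp Units.continuous_val
    have hcl : ∀ w : (A →L[𝕜] A)ˣ, w ∈ closure (LocAut mul : Set (A →L[𝕜] A)ˣ) → ∀ x : A,
        (w : A →L[𝕜] A) x ∈ closure {y | ∃ ψ ∈ Aut mul, ψ x = y} := by
      intro w hw x
      refine map_mem_closure (f := fun w : (A →L[𝕜] A)ˣ => (w : A →L[𝕜] A) x) (hev x) hw ?_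
      intro v hv
      obtain ⟨ψ, hψ, h⟩ := (show IsLocalAut mul (v : A →L[𝕜] A) from hv) x
      exact ⟨ψ, hψ, h.symm⟩
    have hinv : u⁻¹ ∈ closure (LocAut mul : Set (A →L[𝕜] A)ˣ) :=
      (LocAut mul).topologicalClosure.inv_mem hu
    intro x
    have h1 := hcl u hu x
    have h2 := hcl u⁻¹ hinv ((u : A →L[𝕜] A) x)
    have h3 : ((u⁻¹ : (A →L[𝕜] A)ˣ) : A →L[𝕜] A) ((u : A →L[𝕜] A) x) = x :=
      congrArg (fun T : A →L[𝕜] A => T x) u.inv_mul
    rw [h3] at h2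
    obtain ⟨ψ, hψ, h⟩ := orb_mem mul x _ h1 h2
    exact ⟨ψ, hψ, h.symm⟩

end Pool.Agent.Results.MP_fbf57d_al.LocAutClosed
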